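import Pool.Agent.Y554.SN.Stm

/-!
Project SN, part CHAIN: the pivotality of a block implies the events `UE` of three nested annuli
(around the centre, around the nearest point of the boundary, around the nearest corner).
-/

set_option autoImplicit false

namespace Pool.Agent.Y312.SN

open H974 (boxE Edg Vtx Reach Ok Pr RE_subset Pr_le_one)
open H12S H389NS Finset Pool.Agent.Y554.SN

theorem blk_sub {c z : ℤ × ℤ} {a b : ℕ} (h1 : |z.1 - c.1| + a ≤ b) (h2 : |z.2 - c.2| + a ≤ b) :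
    blk c a ⊆ blk z b := by
  have k1 := abs_le.mp (show |z.1 - c.1| ≤ (b:ℤ) - a by linarith)
  have k2 := abs_le.mp (show |z.2 - c.2| ≤ (b:ℤ) - a by linarith)
  unfold blk
  exact RE_subset (by linarith [k1.2]) (by linarith [k1.1]) (by linarith [k2.2])
    (by linarith [k2.1])

theorem bpv_mono {I J : Set Vtx} {b b' : Finset Edg} (h : b ⊆ b') {F : Set Edg}
    (hF : BPv I J b F) : BPv I J b' F := by
  have h' : (↑b : Set Edg) ⊆ ↑b' := by exact_mod_cast h
  obtain ⟨⟨u, hu, v, hv, h1⟩, h2⟩ := hF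
  refine ⟨⟨u, hu, v, hv, h1.mono (Set.union_subset_union_right _ h')⟩, ?_⟩
  rintro ⟨u, hu, v, hv, h3⟩
  exact h2 ⟨u, hu, v, hv, h3.mono (Set.sdiff_subset_sdiff_right h')⟩

theorem ue_of {n : ℕ} {z c : ℤ × ℤ} {a N r : ℕ} (hs : blk c r ⊆ blk z a) {F : Finset Edg}
    (hF : F ⊆ boxE n) (h : BPv (Lf n) (Rt n) (blk c r ∩ boxE n) (↑F : Set Edg)) : UE n z a N F :=
  ⟨F, hF, rfl, bpv_mono (Finset.inter_subset_inter_right hs) h⟩

theorem ue_congr {n : ℕ} {z : ℤ × ℤ} {a N : ℕ} {F G : Finset Edg}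
    (h : F ∩ Anz z a N = G ∩ Anz z a N) : UE n z a N F ↔ UE n z a N G := by
  unfold UE
  rw [h]

/-- The event `UE` under a condition. -/
def Cv (b : Prop) (n : ℕ) (z : ℤ × ℤ) (a N : ℕ) (F : Finset Edg) : Prop := b → UE n z a N F

theorem cv_loc {b : Prop} {n : ℕ} {z : ℤ × ℤ} {a N : ℕ} {F G S : Finset Edg}
    (hS : b → Anz z a N ⊆ S) (h : F ∩ S = G ∩ S) : Cv b n z a N F ↔ Cv b n z a N G := by
  refine forall_congr' fun hb => ue_congr ?_
  have h1 : Anz z a N = S ∩ Anz z a N := (Finset.inter_eq_right.mpr (hS hb)).symm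
  rw [h1, ← Finset.inter_assoc, ← Finset.inter_assoc, h]

theorem cv_loc' {b : Prop} {n : ℕ} {z : ℤ × ℤ} {a N : ℕ} {F : Finset Edg} (hF : F ⊆ boxE n) :
    Cv b n z a N F ↔ Cv b n z a N (F ∩ (Anz z a N ∩ boxE n)) := by
  refine forall_congr' fun _ => ue_congr ?_
  ext e
  simp only [Finset.mem_inter]
  constructor
  · rintro ⟨h1, h2⟩
    exact ⟨⟨h1, h2, hF h1⟩, h2⟩
  · rintro ⟨⟨h1, _, _⟩, h2⟩
    exact ⟨h1, h2⟩

/-- the nearest point of the boundary and the nearest corner -/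
theorem points (n : ℕ) (c : ℤ × ℤ) (h1 : |c.1| ≤ n) (h2 : |c.2| ≤ n) :
    ∃ z z' : ℤ × ℤ,
      (|z.1 - c.1| ≤ b1 n c ∧ |z.2 - c.2| ≤ b1 n c) ∧
      ((|z.1| = n ∧ |z.2| + b2 n c ≤ n) ∨ (|z.2| = n ∧ |z.1| + b2 n c ≤ n)) ∧
      (|z'.1| = n ∧ |z'.2| = n) ∧
      (|z'.1 - z.1| ≤ b2 n c ∧ |z'.2 - z.2| ≤ b2 n c) ∧
      (|z'.1 - c.1| ≤ b2 n c ∧ |z'.2 - c.2| ≤ b2 n c) ∧
      (|c.1| + b1 n c ≤ n ∧ |c.2| + b1 n c ≤ n) ∧ b1 n c ≤ b2 n c := by
  obtain ⟨c1, c2⟩ := c
  simp only at h1 h2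
  have e1 : ((b1 n (c1, c2) : ℕ) : ℤ) = n - max |c1| |c2| := by
    unfold b1
    exact Int.toNat_of_nonneg (sub_nonneg.mpr (max_le h1 h2))
  have e2 : ((b2 n (c1, c2) : ℕ) : ℤ) = n - min |c1| |c2| := by
    unfold b2
    exact Int.toNat_of_nonneg (sub_nonneg.mpr ((min_le_left _ _).trans h1))
  have e3 : b1 n (c1, c2) ≤ b2 n (c1, c2) := by
    have : ((b1 n (c1, c2) : ℕ) : ℤ) ≤ ((b2 n (c1, c2) : ℕ) : ℤ) := by
      rw [e1, e2]
      exact sub_le_sub_left (min_le_max) _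
    exact_mod_cast this
  have e4 : |c1| + (b1 n (c1, c2) : ℤ) ≤ n := by
    rw [e1]; linarith [le_max_left |c1| |c2|]
  have e5 : |c2| + (b1 n (c1, c2) : ℤ) ≤ n := by
    rw [e1]; linarith [le_max_right |c1| |c2|]
  -- the nearest point of a coordinate
  have near : ∀ t : ℤ, |t| ≤ n → ∃ s : ℤ, |s| = n ∧ |s - t| = n - |t| := by
    intro t ht
    rcases le_total 0 t with h | h
    · refine ⟨n, abs_of_nonneg (by positivity), ?_⟩
      rw [abs_of_nonneg h] at ht ⊢
      exact abs_of_nonneg (by linarith)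
    · refine ⟨-n, by rw [abs_neg]; exact abs_of_nonneg (by positivity), ?_⟩
      rw [abs_of_nonpos h] at ht ⊢
      rw [abs_of_nonpos (by linarith)]
      ring
  obtain ⟨s1, p1, p2⟩ := near c1 h1
  obtain ⟨s2, q1, q2⟩ := near c2 h2
  have m1 := min_le_left |c1| |c2|
  have m2 := min_le_right |c1| |c2|
  have z0 : ∀ t : ℤ, |t - t| = 0 := fun t => by rw [sub_self, abs_zero]
  rcases le_total |c2| |c1| with h | h
  · refine ⟨(s1, c2), (s1, s2), ⟨?_, ?_⟩, Or.inl ⟨p1, ?_⟩, ⟨p1, q1⟩, ⟨?_, ?_⟩, ⟨?_, ?_⟩,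
      ⟨e4, e5⟩, e3⟩
    · simp only
      rw [p2, e1, max_eq_left h]
    · simp only
      rw [z0]; positivity
    · simp only
      rw [e2, min_eq_right h]; linarith
    · simp only
      rw [z0]; positivity
    · simp only
      rw [q2, e2]; linarith
    · simp only
      rw [p2, e2]; linarith
    · simp only
      rw [q2, e2]; linarith
  · refine ⟨(c1, s2), (s1, s2), ⟨?_, ?_⟩, Or.inr ⟨q1, ?_⟩, ⟨p1, q1⟩, ⟨?_, ?_⟩, ⟨?_, ?_⟩,
      ⟨e4, e5⟩, e3⟩
    · simp only
      rw [z0]; positivity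
    · simp only
      rw [q2, e1, max_eq_right h]
    · simp only
      rw [e2, min_eq_left h]; linarith
    · simp only
      rw [p2, e2]; linarith
    · simp only
      rw [z0]; positivity
    · simp only
      rw [p2, e2]; linarith
    · simp only
      rw [q2, e2]; linarith

/-- `((2B)/N)^α` against `(B/N)^α` -/
theorem two_mul_div_rpow {B N : ℕ} {α : ℝ} (_hα : 0 ≤ α) :
    (((2 * B : ℕ) : ℝ) / N) ^ α = 2 ^ α * ((B:ℝ) / N) ^ α := by
  rw [← Real.mul_rpow (by norm_num) (by positivity)]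
  congr 1
  push_cast
  ring

theorem one_le_ratio {B N : ℕ} {α : ℝ} (hα : 0 ≤ α) (hN : 1 ≤ N) (h : N ≤ 2 * B) :
    1 ≤ 2 ^ α * ((B:ℝ) / N) ^ α := by
  rw [← Real.mul_rpow (by norm_num) (by positivity)]
  apply Real.one_le_rpow _ hα
  have h0 : (0:ℝ) < N := by exact_mod_cast hN
  rw [mul_div_assoc', le_div_iff₀ h0, one_mul]
  exact_mod_cast h

theorem chain (hb : S_BULK) (hs : S_SIDE) (hc : S_COR) : S_CHAIN := by
  obtain ⟨C1, hC1, h1⟩ := hb
  obtain ⟨C2, hC2, h2⟩ := hs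
  obtain ⟨C3, hC3, h3⟩ := hc
  refine ⟨max C1 1 * (max C2 1 * 2 ^ (11 / 6 : ℝ)) * (max C3 1 * 2 ^ (2 / 3 : ℝ)), 2,
    by positivity, by norm_num, ?_⟩
  intro n r D c hr hrD hDn hc1 hc2
  obtain ⟨z, z', ⟨hz1, hz2⟩, hzs, ⟨hz'1, hz'2⟩, ⟨hzz1, hzz2⟩, ⟨hzc1, hzc2⟩, ⟨hb11, hb12⟩, hb12'⟩ :=
    points n c hc1 hc2
  unfold qc B1 B2
  generalize hβ1 : b1 n c = β1 at *
  generalize hβ2 : b2 n c = β2 at *
  -- radii
  set N1 := min D (max r β1) with hN1
  set N2 := min D (max r β2) with hN2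
  set M2 := min D β2 with hM2
  have hN1' : 1 ≤ N1 := by omega
  have hN2' : 1 ≤ N2 := by omega
  -- inclusions of the boxes
  have i1 : blk c r ⊆ blk c N1 := blk_sub (by rw [sub_self, abs_zero]; omega)
    (by rw [sub_self, abs_zero]; omega)
  have i2 : blk c N1 ⊆ blk z (2 * max r β1) := blk_sub (by omega) (by omega)
  have i3 : blk z M2 ⊆ blk z' (2 * max r β2) := blk_sub (by omega) (by omega)
  have i4 : blk c N1 ⊆ blk z' (2 * max r β2) := blk_sub (by omega) (by omega)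
  have j1 : blk c N1 ⊆ blk c (2 * D) := blk_sub (by rw [sub_self, abs_zero]; omega)
    (by rw [sub_self, abs_zero]; omega)
  have j2 : 2 * max r β1 ≤ M2 → blk z M2 ⊆ blk c (2 * D) := by
    intro h
    exact blk_sub (by rw [abs_sub_comm]; omega) (by rw [abs_sub_comm]; omega)
  have j3 : 2 * max r β2 ≤ D → blk z' D ⊆ blk c (2 * D) := by
    intro h
    exact blk_sub (by rw [abs_sub_comm]; omega) (by rw [abs_sub_comm]; omega)
  have s1 : Anz c r N1 ⊆ blk c (2 * D) \ blk c r := Finset.sdiff_subset_sdiff j1 subset_rfl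
  have s2 : 2 * max r β1 ≤ M2 → Anz z (2 * max r β1) M2 ⊆ blk c (2 * D) \ blk c r := fun h =>
    Finset.sdiff_subset_sdiff (j2 h) (i1.trans i2)
  have s3 : 2 * max r β2 ≤ D → Anz z' (2 * max r β2) D ⊆ blk c (2 * D) \ blk c r := fun h =>
    Finset.sdiff_subset_sdiff (j3 h) (i1.trans i4)
  refine ⟨fun F => Cv (r ≤ β1) n c r N1 F ∧ (Cv (2 * max r β1 ≤ M2) n z (2 * max r β1) M2 F ∧
    Cv (2 * max r β2 ≤ D) n z' (2 * max r β2) D F), ?_, ?_, ?_⟩
  · intro F F' h
    exact and_congr (cv_loc (fun _ => s1) h) (and_congr (cv_loc s2 h) (cv_loc s3 h))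
  · intro F hF h
    exact ⟨fun _ => ue_of subset_rfl hF h, fun _ => ue_of (i1.trans i2) hF h,
      fun _ => ue_of (i1.trans i4) hF h⟩
  · intro x hx0 hx1 hx
    have hρ : ∀ e ∈ boxE n, 0 ≤ (fun _ : Edg => x) e ∧ (fun _ : Edg => x) e ≤ 1 :=
      fun _ _ => ⟨hx0, hx1.le⟩
    have okh : Ok (hp : Edg → ℝ) := by
      intro e; unfold hp; norm_num
    have triv : ∀ A B : Finset Edg → Prop, P2 (fun _ => x) (boxE n) A B ≤ 1 := fun A B =>
      (P2_le_Pr hρ A B).trans (Pr_le_one okh _ _)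
    -- disjointness
    have d12 : Disjoint (Anz c r N1 ∩ boxE n) (Anz z (2 * max r β1) M2 ∩ boxE n) := by
      rw [Finset.disjoint_left]
      intro e h1 h2
      unfold Anz at h1 h2
      simp only [Finset.mem_inter, Finset.mem_sdiff] at h1 h2
      exact h2.1.2 (i2 h1.1.1)
    have d13 : Disjoint (Anz c r N1 ∩ boxE n) (Anz z' (2 * max r β2) D ∩ boxE n) := by
      rw [Finset.disjoint_left]
      intro e h1 h2
      unfold Anz at h1 h2
      simp only [Finset.mem_inter, Finset.mem_sdiff] at h1 h2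
      exact h2.1.2 (i4 h1.1.1)
    have d23 : Disjoint (Anz z (2 * max r β1) M2 ∩ boxE n)
        (Anz z' (2 * max r β2) D ∩ boxE n) := by
      rw [Finset.disjoint_left]
      intro e h1 h2
      unfold Anz at h1 h2
      simp only [Finset.mem_inter, Finset.mem_sdiff] at h1 h2
      exact h2.1.2 (i3 h1.1.1)
    have l23 : ∀ F : Finset Edg, F ⊆ boxE n →
        ((Cv (2 * max r β1 ≤ M2) n z (2 * max r β1) M2 F ∧
          Cv (2 * max r β2 ≤ D) n z' (2 * max r β2) D F) ↔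
        (Cv (2 * max r β1 ≤ M2) n z (2 * max r β1) M2
            (F ∩ ((Anz z (2 * max r β1) M2 ∩ boxE n) ∪ (Anz z' (2 * max r β2) D ∩ boxE n))) ∧
          Cv (2 * max r β2 ≤ D) n z' (2 * max r β2) D
            (F ∩ ((Anz z (2 * max r β1) M2 ∩ boxE n) ∪
              (Anz z' (2 * max r β2) D ∩ boxE n))))) := by
      intro F hF
      have hF' := (Finset.inter_subset_left (s₁ := F)
        (s₂ := (Anz z (2 * max r β1) M2 ∩ boxE n) ∪ (Anz z' (2 * max r β2) D ∩ boxE n))).trans hF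
      rw [cv_loc' hF, cv_loc' hF', cv_loc' (z := z') hF, cv_loc' (z := z') hF',
        Finset.inter_assoc, Finset.inter_assoc,
        Finset.inter_eq_right.mpr (Finset.subset_union_left),
        Finset.inter_eq_right.mpr (Finset.subset_union_right)]
    have prod : P2 (fun _ => x) (boxE n)
        (fun F => Cv (r ≤ β1) n c r N1 F ∧ (Cv (2 * max r β1 ≤ M2) n z (2 * max r β1) M2 F ∧
          Cv (2 * max r β2 ≤ D) n z' (2 * max r β2) D F))
        (fun F => Cv (r ≤ β1) n c r N1 F ∧ (Cv (2 * max r β1 ≤ M2) n z (2 * max r β1) M2 F ∧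
          Cv (2 * max r β2 ≤ D) n z' (2 * max r β2) D F)) =
        P2 (fun _ => x) (boxE n) (Cv (r ≤ β1) n c r N1) (Cv (r ≤ β1) n c r N1) *
        (P2 (fun _ => x) (boxE n) (Cv (2 * max r β1 ≤ M2) n z (2 * max r β1) M2)
            (Cv (2 * max r β1 ≤ M2) n z (2 * max r β1) M2) *
          P2 (fun _ => x) (boxE n) (Cv (2 * max r β2 ≤ D) n z' (2 * max r β2) D)
            (Cv (2 * max r β2 ≤ D) n z' (2 * max r β2) D)) := by
      rw [← P2_indep (A := Cv (2 * max r β1 ≤ M2) n z (2 * max r β1) M2)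
        (A' := Cv (2 * max r β1 ≤ M2) n z (2 * max r β1) M2)
        (B := Cv (2 * max r β2 ≤ D) n z' (2 * max r β2) D)
        (B' := Cv (2 * max r β2 ≤ D) n z' (2 * max r β2) D)
        (S := Anz z (2 * max r β1) M2 ∩ boxE n) (T := Anz z' (2 * max r β2) D ∩ boxE n)
        Finset.inter_subset_right Finset.inter_subset_right d23
        (fun F hF => cv_loc' hF) (fun F hF => cv_loc' hF) (fun F hF => cv_loc' hF)
        (fun F hF => cv_loc' hF)]
      exact P2_indep (A := Cv (r ≤ β1) n c r N1) (A' := Cv (r ≤ β1) n c r N1)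
        (B := fun F => Cv (2 * max r β1 ≤ M2) n z (2 * max r β1) M2 F ∧
          Cv (2 * max r β2 ≤ D) n z' (2 * max r β2) D F)
        (B' := fun F => Cv (2 * max r β1 ≤ M2) n z (2 * max r β1) M2 F ∧
          Cv (2 * max r β2 ≤ D) n z' (2 * max r β2) D F)
        (S := Anz c r N1 ∩ boxE n)
        (T := (Anz z (2 * max r β1) M2 ∩ boxE n) ∪ (Anz z' (2 * max r β2) D ∩ boxE n))
        Finset.inter_subset_right (Finset.union_subset Finset.inter_subset_right
          Finset.inter_subset_right) (Finset.disjoint_union_right.mpr ⟨d12, d13⟩)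
        (fun F hF => cv_loc' hF) (fun F hF => cv_loc' hF) l23 l23
    rw [prod]
    -- the three factors
    have xa : ∀ a : ℕ, r ≤ a → 1 ≤ (1 - x) * (a:ℝ) ^ (3 / 4 : ℝ) := by
      intro a ha
      refine hx.trans (mul_le_mul_of_nonneg_left ?_ (by linarith))
      exact Real.rpow_le_rpow (by positivity) (by exact_mod_cast ha) (by norm_num)
    have f1 : P2 (fun _ => x) (boxE n) (Cv (r ≤ β1) n c r N1) (Cv (r ≤ β1) n c r N1) ≤
        max C1 1 * ((r:ℝ) / N1) ^ (5 / 2 : ℝ) := by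
      by_cases h : r ≤ β1
      · have e : Cv (r ≤ β1) n c r N1 = UE n c r N1 := by
          funext F
          exact propext ⟨fun k => k h, fun k _ => k⟩
        rw [e]
        refine (h1 n r N1 c x hr (by omega) (by omega) (by omega) hx0 hx1 hx).trans ?_
        exact mul_le_mul_of_nonneg_right (le_max_left _ _) (by positivity)
      · have e : N1 = r := by omega
        refine (triv _ _).trans ?_
        rw [e, div_self (by positivity), Real.one_rpow, mul_one]
        exact le_max_right _ _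
    have f2 : P2 (fun _ => x) (boxE n) (Cv (2 * max r β1 ≤ M2) n z (2 * max r β1) M2)
            (Cv (2 * max r β1 ≤ M2) n z (2 * max r β1) M2) ≤
        (max C2 1 * 2 ^ (11 / 6 : ℝ)) * ((N1:ℝ) / N2) ^ (11 / 6 : ℝ) := by
      by_cases h : 2 * max r β1 ≤ M2
      · have e : Cv (2 * max r β1 ≤ M2) n z (2 * max r β1) M2 = UE n z (2 * max r β1) M2 := by
          funext F
          exact propext ⟨fun k => k h, fun k _ => k⟩
        rw [e]
        have e1 : max r β1 = N1 := by omega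
        have e2 : M2 = N2 := by omega
        refine (h2 n (2 * max r β1) M2 z x (by omega) h ?_ hx0 hx1 (xa _ (by omega))).trans ?_
        · rcases hzs with ⟨k1, k2⟩ | ⟨k1, k2⟩
          · left
            refine ⟨k1, ?_⟩
            omega
          · right
            refine ⟨k1, ?_⟩
            omega
        · rw [e1, e2, two_mul_div_rpow (by norm_num), mul_assoc]
          exact mul_le_mul_of_nonneg_right (le_max_left _ _) (by positivity)
      · refine (triv _ _).trans ?_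
        rw [mul_assoc]
        have k := one_le_ratio (B := N1) (N := N2) (α := 11 / 6) (by norm_num) hN2' (by omega)
        calc (1:ℝ) ≤ max C2 1 * 1 := by rw [mul_one]; exact le_max_right _ _
          _ ≤ _ := mul_le_mul_of_nonneg_left k (by positivity)
    have f3 : P2 (fun _ => x) (boxE n) (Cv (2 * max r β2 ≤ D) n z' (2 * max r β2) D)
            (Cv (2 * max r β2 ≤ D) n z' (2 * max r β2) D) ≤
        (max C3 1 * 2 ^ (2 / 3 : ℝ)) * ((N2:ℝ) / D) ^ (2 / 3 : ℝ) := by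
      by_cases h : 2 * max r β2 ≤ D
      · have e : Cv (2 * max r β2 ≤ D) n z' (2 * max r β2) D = UE n z' (2 * max r β2) D := by
          funext F
          exact propext ⟨fun k => k h, fun k _ => k⟩
        rw [e]
        have e1 : max r β2 = N2 := by omega
        refine (P2_le_Pr hρ _ _).trans ?_
        refine (h3 n (2 * max r β2) D z' (by omega) h hz'1 hz'2 hDn).trans ?_
        rw [e1, two_mul_div_rpow (by norm_num), mul_assoc]
        exact mul_le_mul_of_nonneg_right (le_max_left _ _) (by positivity)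
      · refine (triv _ _).trans ?_
        rw [mul_assoc]
        have k := one_le_ratio (B := N2) (N := D) (α := 2 / 3) (by norm_num) (by omega) (by omega)
        calc (1:ℝ) ≤ max C3 1 * 1 := by rw [mul_one]; exact le_max_right _ _
          _ ≤ _ := mul_le_mul_of_nonneg_left k (by positivity)
    have g1 := D0.P2_nonneg hρ (Cv (r ≤ β1) n c r N1) (Cv (r ≤ β1) n c r N1)
    have g2 := D0.P2_nonneg hρ (Cv (2 * max r β1 ≤ M2) n z (2 * max r β1) M2)
            (Cv (2 * max r β1 ≤ M2) n z (2 * max r β1) M2)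
    have g3 := D0.P2_nonneg hρ (Cv (2 * max r β2 ≤ D) n z' (2 * max r β2) D)
            (Cv (2 * max r β2 ≤ D) n z' (2 * max r β2) D)
    calc _ ≤ (max C1 1 * ((r:ℝ) / N1) ^ (5 / 2 : ℝ)) *
          (((max C2 1 * 2 ^ (11 / 6 : ℝ)) * ((N1:ℝ) / N2) ^ (11 / 6 : ℝ)) *
          ((max C3 1 * 2 ^ (2 / 3 : ℝ)) * ((N2:ℝ) / D) ^ (2 / 3 : ℝ))) :=
          mul_le_mul f1 (mul_le_mul f2 f3 g3 (by positivity)) (mul_nonneg g2 g3) (by positivity)
      _ = _ := by ring

end Pool.Agent.Y312.SN
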