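import Pool.Agent.Y554.SN.Stm

/-!
Project SN, part SIDEL: the left and right sides of the square. The pivotality of a box centred at
a point of the left side implies the half plane event `YS` for the half annulus around it.
-/

set_option autoImplicit false

namespace Pool.Agent.Y312.SN

open H974 H12S H985T H389NS Finset Pool.Agent.Y554.DP Pool.Agent.Y554.SN

/-- in the box of radius `r` around `c` -/
def inBx (c : ℤ × ℤ) (r : ℕ) (v : Vtx) : Prop :=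
  inR (c.1 - r) (c.1 + r) (c.2 - r) (c.2 + r) v

/-- on its boundary -/
def onBx (c : ℤ × ℤ) (r : ℕ) (v : Vtx) : Prop :=
  inBx c r v ∧ (v.1 = c.1 - r ∨ v.1 = c.1 + r ∨ v.2 = c.2 - r ∨ v.2 = c.2 + r)

theorem mem_blk {c : ℤ × ℤ} {r : ℕ} {e : Edg} :
    e ∈ blk c r ↔ inBx c r (src e) ∧ inBx c r (tgt e) := by
  obtain ⟨x, y, _ | _⟩ := e <;>
    simp only [blk, mem_RE_true, mem_RE_false, inBx, inR, src_mk, tgt_true, tgt_false] <;> omega

/-- The last part of a path, after the last use of an edge of the box. -/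
theorem claimA {G : Set Edg} {c : ℤ × ℤ} {a : ℕ} {u v : Vtx} (h : Reach G u v) :
    Reach (G \ ↑(blk c a)) u v ∨ ∃ w, inBx c a w ∧ Reach (G \ ↑(blk c a)) w v := by
  induction h using Relation.ReflTransGen.head_induction_on with
  | refl => exact Or.inl (Reach.refl _ _)
  | head h1 h2 ih =>
    rcases ih with ih | ih
    · obtain ⟨e, he, hcase⟩ := h1
      by_cases hb : e ∈ blk c a
      · right
        rw [mem_blk] at hb
        refine ⟨_, ?_, ih⟩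
        rcases hcase with ⟨_, k⟩ | ⟨k, _⟩
        · rw [← k]; exact hb.2
        · rw [← k]; exact hb.1
      · left
        have k : Adj (G \ ↑(blk c a)) _ _ := ⟨e, ⟨he, hb⟩, hcase⟩
        exact k.reach.trans ih
    · exact Or.inr ih

/-- A path from the inner box to distance `N` which does not use edges of the inner box crosses
the annulus. -/
theorem cross_out {G : Set Edg} {c : ℤ × ℤ} {a N : ℕ} (haN : a ≤ N) {w v : Vtx}
    (hw : inBx c a w) (h : Reach (G \ ↑(blk c a)) w v)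
    (hv : v.1 ≤ c.1 - N ∨ c.1 + N ≤ v.1 ∨ v.2 ≤ c.2 - N ∨ c.2 + N ≤ v.2) :
    ∃ v', onBx c a w ∧ onBx c N v' ∧ Reach (G ∩ ↑(Anz c a N)) w v' := by
  have hw' : inR (c.1 - N) (c.1 + N) (c.2 - N) (c.2 + N) w := by
    unfold inBx inR at *
    omega
  obtain ⟨v', k1, k2, k3⟩ := first_exit hw' h hv
  refine ⟨v', ⟨hw, ?_⟩, ⟨k1, k2⟩, k3.mono ?_⟩
  · rcases Relation.ReflTransGen.cases_head k3 with e | ⟨w', ⟨e, ⟨⟨_, he⟩, _⟩, hc⟩, _⟩
    · subst e
      unfold inBx inR at *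
      omega
    · rw [Finset.mem_coe, mem_blk] at he
      obtain ⟨x, y, _ | _⟩ := e <;>
        simp only [inBx, inR, src_mk, tgt_true, tgt_false] at he hw hc ⊢ <;>
        rcases hc with ⟨h1, h2⟩ | ⟨h1, h2⟩ <;> subst h1 <;> subst h2 <;>
        simp only at he hw ⊢ <;> omega
  · rintro e ⟨⟨h1, h2⟩, h3⟩
    refine ⟨h1, ?_⟩
    unfold Anz
    rw [Finset.coe_sdiff]
    exact ⟨h3, h2⟩

theorem image_inter (σ : LSym) (F T : Finset Edg) :
    σ.φ '' ((↑F : Set Edg) ∩ ↑T) = (↑(σ.mp F) : Set Edg) ∩ ↑(σ.mp T) := by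
  rw [Set.image_inter σ.φ.injective, LSym.coe_mp, LSym.coe_mp]

theorem det {n a N : ℕ} {z : ℤ × ℤ} (haN : a ≤ N) (σ : LSym) {I J : Set Vtx}
    (hT : σ.mp (Anz z a N ∩ boxE n) = HA a N)
    (hB : ∀ (r : ℕ) (v : Vtx), onBx z r v → onB r (σ.ψ v))
    (hI : ∀ v, inBx z N v → (σ.ψ v).1 = 0 → v ∈ I)
    (hJ : ∀ v ∈ J, v.1 ≤ z.1 - N ∨ z.1 + N ≤ v.1 ∨ v.2 ≤ z.2 - N ∨ z.2 + N ≤ v.2)
    {F F' : Finset Edg} (hF' : F' ⊆ boxE n) (he : F' ∩ Anz z a N = F ∩ Anz z a N)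
    (hp : BPv I J (blk z a ∩ boxE n) (↑F' : Set Edg)) :
    YS a N (↑(σ.mp F) : Set Edg) := by
  obtain ⟨⟨u0, hu0, v0, hv0, h1⟩, h2⟩ := hp
  have g1 : (((↑F' : Set Edg) ∪ ↑(blk z a ∩ boxE n)) \ ↑(blk z a) : Set Edg) ⊆
      ((↑F' : Set Edg) \ ↑(blk z a ∩ boxE n) : Set Edg) := by
    rintro e ⟨k1 | k1, k2⟩
    · exact ⟨k1, fun k => k2 (Finset.mem_coe.mpr (Finset.mem_inter.mp (Finset.mem_coe.mp k)).1)⟩
    · exact absurd (Finset.mem_coe.mpr (Finset.mem_inter.mp (Finset.mem_coe.mp k1)).1) k2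
  have key : ∀ e, e ∈ Anz z a N → (e ∈ F' ↔ e ∈ F) := by
    intro e k
    have := congrArg (fun S : Finset Edg => e ∈ S) he
    simpa only [Finset.mem_inter, k, and_true, eq_iff_iff] using this
  rcases claimA (c := z) (a := a) h1 with h | ⟨w, hw, h⟩
  · exact absurd ⟨u0, hu0, v0, hv0, h.mono g1⟩ h2
  · obtain ⟨v', k1, k2, k3⟩ := cross_out haN hw h (hJ v0 hv0)
    have g2 : (((↑F' : Set Edg) ∪ ↑(blk z a ∩ boxE n)) ∩ ↑(Anz z a N) : Set Edg) ⊆
        ((↑F : Set Edg) ∩ ↑(Anz z a N ∩ boxE n)) := by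
      rintro e ⟨m1, m2⟩
      have m2' := Finset.mem_coe.mp m2
      have m3 : e ∈ F' := by
        rcases m1 with m1 | m1
        · exact Finset.mem_coe.mp m1
        · exfalso
          unfold Anz at m2'
          exact (Finset.mem_sdiff.mp m2').2 (Finset.mem_inter.mp (Finset.mem_coe.mp m1)).1
      exact ⟨Finset.mem_coe.mpr ((key e m2').mp m3),
        Finset.mem_coe.mpr (Finset.mem_inter.mpr ⟨m2', hF' m3⟩)⟩
    refine ⟨σ.ψ w, σ.ψ v', hB a w k1, hB N v' k2, ?_, ?_⟩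
    · have k4 := σ.reach (k3.mono g2)
      rwa [image_inter, hT] at k4
    · intro w' hw' hr
      obtain ⟨w'', rfl⟩ : ∃ w'', σ.ψ w'' = w' := ⟨σ.ψ.symm w', by simp⟩
      rw [← hT, ← image_inter, σ.reach_iff] at hr
      have hin : inBx z N w'' := by
        rcases Relation.ReflTransGen.cases_tail hr with e | ⟨y, _, ⟨e, ⟨_, q⟩, hc⟩⟩
        · rw [e]
          unfold inBx inR at *
          omega
        · have q1 := (Finset.mem_inter.mp (Finset.mem_coe.mp q)).1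
          unfold Anz at q1
          have q2 := mem_blk.mp (Finset.mem_sdiff.mp q1).1
          rcases hc with ⟨_, c2⟩ | ⟨c1, _⟩
          · rw [← c2]; exact q2.2
          · rw [← c1]; exact q2.1
      have g3 : ((↑F : Set Edg) ∩ ↑(Anz z a N ∩ boxE n)) ⊆
          ((↑F' : Set Edg) \ ↑(blk z a ∩ boxE n) : Set Edg) := by
        rintro e ⟨m1, m2⟩
        have m3 := (Finset.mem_inter.mp (Finset.mem_coe.mp m2)).1
        refine ⟨Finset.mem_coe.mpr ((key e m3).mpr (Finset.mem_coe.mp m1)), fun m4 => ?_⟩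
        unfold Anz at m3
        exact (Finset.mem_sdiff.mp m3).2 (Finset.mem_inter.mp (Finset.mem_coe.mp m4)).1
      exact h2 ⟨w'', hI w'' hin hw', v0, hv0, (hr.symm.mono g3).trans (h.mono g1)⟩

theorem YS_inter {a N : ℕ} {F : Finset Edg} :
    YS a N (↑F : Set Edg) ↔ YS a N (↑(F ∩ HA a N) : Set Edg) := by
  have h : ((↑(F ∩ HA a N) : Set Edg) ∩ ↑(HA a N)) = (↑F : Set Edg) ∩ ↑(HA a N) := by
    rw [Finset.coe_inter, Set.inter_assoc, Set.inter_self]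
  unfold YS
  rw [h]

/-- transport of the two-layer probability -/
theorem P2_le_YS {n a N : ℕ} {z : ℤ × ℤ} (σ : LSym) {x : ℝ} (hx0 : 0 ≤ x) (hx1 : x ≤ 1)
    (hT : σ.mp (Anz z a N ∩ boxE n) = HA a N)
    (hU : ∀ F : Finset Edg, UE n z a N F → YS a N (↑(σ.mp F) : Set Edg)) :
    P2 (fun _ => x) (boxE n) (UE n z a N) (UE n z a N) ≤
      P2 (fun _ => x) (HA a N) (fun F => YS a N ↑F) (fun F => YS a N ↑F) := by
  refine (D0.P2_mono (fun _ _ => ⟨hx0, hx1⟩) (fun F _ hF => hU F hF)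
    (fun F _ hF => hU F hF)).trans ?_
  have loc : ∀ F : Finset Edg, F ⊆ boxE n → (YS a N (↑(σ.mp F) : Set Edg) ↔
      YS a N (↑(σ.mp (F ∩ (Anz z a N ∩ boxE n))) : Set Edg)) := by
    intro F _
    rw [LSym.mp_inter, hT, ← YS_inter]
  rw [P2_local (S' := Anz z a N ∩ boxE n) Finset.inter_subset_right loc loc, ← hT]
  unfold LSym.mp
  rw [D0.P2_map]

/-- composition of symmetries -/
def cmp (g h : LSym) : LSym where
  φ := g.φ.trans h.φ
  ψ := g.ψ.trans h.ψ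
  compat := by
    intro e
    simp only [Equiv.trans_apply]
    rcases g.compat e with ⟨h1, h2⟩ | ⟨h1, h2⟩ <;>
      rcases h.compat (g.φ e) with ⟨k1, k2⟩ | ⟨k1, k2⟩ <;> rw [k1, k2, h1, h2] <;> simp

theorem cmp_mp (g h : LSym) (F : Finset Edg) : (cmp g h).mp F = h.mp (g.mp F) := by
  ext e
  simp only [LSym.mem_mp, cmp, Equiv.symm_trans_apply]

theorem mem_HA {a N : ℕ} {e : Edg} : e ∈ HA a N ↔
    (inBx (0, 0) N (src e) ∧ inBx (0, 0) N (tgt e)) ∧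
      ¬ (inBx (0, 0) a (src e) ∧ inBx (0, 0) a (tgt e)) ∧ 0 ≤ (src e).1 ∧ 0 ≤ (tgt e).1 := by
  unfold HA An
  rw [Finset.mem_filter, Finset.mem_sdiff]
  have h : ∀ r : ℕ, boxE r = blk (0, 0) r := by
    intro r
    unfold boxE blk
    congr 1 <;> ring
  rw [h, h, mem_blk, mem_blk]
  tauto

theorem hT_left {n a N : ℕ} {z : ℤ × ℤ} (h1 : z.1 = -(n:ℤ)) (h2 : |z.2| + N ≤ n) :
    (trl n (-z.2)).mp (Anz z a N ∩ boxE n) = HA a N := by
  obtain ⟨z1, z2⟩ := z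
  simp only at h1 h2
  have h3 := abs_le.mp (show |z2| ≤ (n:ℤ) - N by linarith)
  ext ⟨x, y, _ | _⟩ <;>
    simp only [LSym.mem_mp, trl_φs, mem_HA, Anz, boxE, Finset.mem_inter, Finset.mem_sdiff,
      mem_blk, inBx, inR, src_mk, tgt_true, tgt_false, mem_RE_true, mem_RE_false] <;> omega

theorem hT_right {n a N : ℕ} {z : ℤ × ℤ} (h1 : z.1 = (n:ℤ)) (h2 : |z.2| + N ≤ n) :
    (cmp (rfx n) (trl 0 (-z.2))).mp (Anz z a N ∩ boxE n) = HA a N := by
  obtain ⟨z1, z2⟩ := z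
  simp only at h1 h2
  have h3 := abs_le.mp (show |z2| ≤ (n:ℤ) - N by linarith)
  rw [cmp_mp]
  ext ⟨x, y, _ | _⟩ <;>
    simp only [LSym.mem_mp, trl_φs, rfx_φst, rfx_φsf, mem_HA, Anz, boxE, Finset.mem_inter,
      Finset.mem_sdiff, mem_blk, inBx, inR, src_mk, tgt_true, tgt_false, mem_RE_true,
      mem_RE_false] <;> omega

theorem bpv_symm {I J : Set Vtx} {b : Finset Edg} {F : Set Edg} (h : BPv I J b F) :
    BPv J I b F := by
  obtain ⟨⟨u, hu, v, hv, h1⟩, h2⟩ := h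
  exact ⟨⟨v, hv, u, hu, h1.symm⟩, fun ⟨u, hu, v, hv, h3⟩ => h2 ⟨v, hv, u, hu, h3.symm⟩⟩

/-- The left and right sides. -/
theorem sideLR (hy : S_YB) : ∃ C : ℝ, 0 < C ∧ ∀ (n a N : ℕ) (z : ℤ × ℤ) (x : ℝ), 1 ≤ a →
    a ≤ N → |z.1| = n → |z.2| + N ≤ n → 0 ≤ x → x < 1 → 1 ≤ (1 - x) * (a:ℝ) ^ (3 / 4 : ℝ) →
    P2 (fun _ => x) (boxE n) (UE n z a N) (UE n z a N) ≤ C * ((a:ℝ) / N) ^ (11 / 6 : ℝ) := by
  obtain ⟨C, hC, h⟩ := hy
  refine ⟨C, hC, ?_⟩
  intro n a N z x ha haN hz1 hz2 hx0 hx1 hx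
  refine le_trans ?_ (h a N x ha haN hx0 hx1 hx)
  have h3 := abs_le.mp (show |z.2| ≤ (n:ℤ) - N by linarith)
  rcases abs_choice z.1 with hz | hz
  · -- right side
    rw [hz] at hz1
    refine P2_le_YS (cmp (rfx n) (trl 0 (-z.2))) hx0 hx1.le (hT_right hz1 hz2) ?_
    rintro F ⟨F', hF', he, hp⟩
    refine det haN _ (hT_right hz1 hz2) ?_ ?_ ?_ hF' he (bpv_symm hp)
    · rintro r ⟨v1, v2⟩ hv
      change onB r ((n:ℤ) - v1 + 0, v2 + -z.2)
      simp only [onBx, inBx, inR, onB] at hv ⊢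
      omega
    · rintro ⟨v1, v2⟩ hv hv0
      change (n:ℤ) - v1 + 0 = 0 at hv0
      simp only [inBx, inR, Rt, lsd, Set.mem_ofPred_eq] at hv ⊢
      omega
    · rintro ⟨v1, v2⟩ hv
      simp only [Pool.Agent.Y554.SN.Lf, lsd, Set.mem_ofPred_eq] at hv
      simp only
      omega
  · -- left side
    rw [hz] at hz1
    have hz1' : z.1 = -(n:ℤ) := by linarith
    refine P2_le_YS (trl n (-z.2)) hx0 hx1.le (hT_left hz1' hz2) ?_
    rintro F ⟨F', hF', he, hp⟩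
    refine det haN _ (hT_left hz1' hz2) ?_ ?_ ?_ hF' he hp
    · rintro r ⟨v1, v2⟩ hv
      change onB r (v1 + (n:ℤ), v2 + -z.2)
      simp only [onBx, inBx, inR, onB] at hv ⊢
      omega
    · rintro ⟨v1, v2⟩ hv hv0
      change v1 + (n:ℤ) = 0 at hv0
      simp only [inBx, inR, Pool.Agent.Y554.SN.Lf, lsd, Set.mem_ofPred_eq] at hv ⊢
      omega
    · rintro ⟨v1, v2⟩ hv
      simp only [Rt, lsd, Set.mem_ofPred_eq] at hv
      simp only
      omega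

end Pool.Agent.Y312.SN
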